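import Mathlib

/-!
# Thin recurrence: general lemmas

Frostman bounds for invariant measures and lower bounds for covering numbers of orbits from
lower bounds on the returns.
-/

set_option autoImplicit false

open MeasureTheory Filter Set Metric
open scoped Topology ENNReal NNReal

universe u

namespace Pool.Agent.H64.CT

/-- gauge functions -/
structure Gauge (φ : ℝ → ℝ) : Prop where
  pos : ∀ t, 0 < t → t < 1 / 2 → 0 < φ t
  mono : ∀ s t, 0 < s → s ≤ t → t < 1 / 2 → φ s ≤ φ t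
  dbl : ∃ D : ℝ, 0 < D ∧ ∀ t, 0 < t → t < 1 / 4 → φ (2 * t) ≤ D * φ t
  lim : Tendsto φ (𝓝[>] 0) (𝓝 0)

/-- `Fro φ F z`: near `z` all invariant probability measures of `F` satisfy `μ(B(y, ε)) ≤ C φ(ε)`, and
no orbit is covered by fewer than `1 / (C φ(ε))` sets of diameter at most `ε`. -/
def Fro {N : Type u} [MetricSpace N] [MeasurableSpace N] (φ : ℝ → ℝ) (F : N → N) (z : N) : Prop :=
  ∃ W ∈ 𝓝 z, ∃ C : ℝ, 0 < C ∧ ∀ y ∈ W, ∀ ε, 0 < ε → ε < 1 / 2 →
    (∀ μ : Measure N, IsProbabilityMeasure μ → MeasurePreserving F μ μ →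
      μ (ball y ε) ≤ ENNReal.ofReal (C * φ ε)) ∧
    ∀ S : Finset (Set N), (∀ s ∈ S, ediam s ≤ ENNReal.ofReal ε) →
      (∀ i : ℕ, ∃ s ∈ S, F^[i] y ∈ s) → 1 ≤ C * S.card * φ ε

section

variable {N : Type u} [MetricSpace N] [MeasurableSpace N] [BorelSpace N]

theorem fro_of {φ : ℝ → ℝ} (hφ : Gauge φ) (F : N → N) (z : N) (Λ : ℕ → ℝ)
    (hΛ1 : ∀ m, 1 ≤ Λ m) (hΛm : Monotone Λ)
    (hlip : ∀ i x y, dist x y ≤ Λ i * dist (F^[i] x) (F^[i] y))
    (b : ℕ) (W : Set N) (hW : W ∈ 𝓝 z) (c : ℝ)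
    (hs : ∀ y ∈ W, ∀ m : ℕ, 1 ≤ m → c / (Λ m) ^ b ≤ dist (F^[m] y) y)
    (hnum : ∃ C : ℝ, 0 < C ∧ ∀ ε, 0 < ε → ε < 1 / 2 → ∀ M : ℕ, 1 ≤ M →
      c ≤ 2 * ε * (Λ M) ^ (b + 1) → 1 ≤ C * M * φ ε) :
    Fro φ F z := by
  obtain ⟨C, hC, hnum⟩ := hnum
  obtain ⟨δ, hδ, hδW⟩ := Metric.mem_nhds_iff.1 hW
  obtain ⟨δ', hδ'⟩ : ∃ δ' : ℝ, δ' = min (δ / 2) (1 / 4) := ⟨_, rfl⟩
  have hδ'0 : 0 < δ' := by rw [hδ']; positivity
  have hδ'1 : δ' ≤ δ / 2 := by rw [hδ']; exact min_le_left _ _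
  have hδ'2 : δ' ≤ 1 / 4 := by rw [hδ']; exact min_le_right _ _
  have hφδ := hφ.pos δ' hδ'0 (by linarith)
  refine ⟨ball z δ', ball_mem_nhds _ hδ'0, max (2 * C) (1 / φ δ'), by positivity, ?_⟩
  intro y hy ε hε hε2
  have hφε := hφ.pos ε hε hε2
  have hyz : dist y z < δ' := hy
  constructor
  · intro μ hμ hF
    rcases lt_or_ge ε δ' with hεδ | hεδ
    · by_cases ha : μ (ball y ε) = 0
      · rw [ha]; exact zero_le
      have hat : μ (ball y ε) ≠ ∞ := measure_ne_top μ _
      obtain ⟨a, haa⟩ : ∃ a : ℝ, a = (μ (ball y ε)).toReal := ⟨_, rfl⟩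
      have ha0 : 0 < a := by rw [haa]; exact ENNReal.toReal_pos ha hat
      have ha1 : a ≤ 1 := by
        rw [haa]
        have := prob_le_one (μ := μ) (s := ball y ε)
        exact ENNReal.toReal_mono ENNReal.one_ne_top this
      obtain ⟨n, hn⟩ : ∃ n : ℕ, n = ⌊1 / a⌋₊ + 1 := ⟨_, rfl⟩
      have hn1 : 1 / a < n := by
        rw [hn]; push_cast
        exact Nat.lt_floor_add_one _
      have hn2 : (n : ℝ) ≤ 2 / a := by
        rw [hn]; push_cast
        have h1 : (⌊1 / a⌋₊ : ℝ) ≤ 1 / a := Nat.floor_le (by positivity)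
        have h2 : (1 : ℝ) ≤ 1 / a := by rw [le_div_iff₀ ha0]; linarith
        have h3 : 2 / a = 1 / a + 1 / a := by ring
        rw [h3]; linarith
      have hvol : μ univ < n * μ (ball y ε) := by
        rw [measure_univ]
        have h1 : (1 : ℝ) < n * a := by
          rwa [div_lt_iff₀ ha0] at hn1
        have h2 : (n : ℝ≥0∞) * μ (ball y ε) = ENNReal.ofReal (n * a) := by
          rw [ENNReal.ofReal_mul (by positivity), ENNReal.ofReal_natCast, haa,
            ENNReal.ofReal_toReal hat]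
        rw [h2, ← ENNReal.ofReal_one]
        exact (ENNReal.ofReal_lt_ofReal_iff (by linarith)).2 h1
      obtain ⟨x, hx, m, ⟨hm0, hmn⟩, hmx⟩ :=
        hF.exists_mem_iterate_mem_of_measure_univ_lt_mul_measure
          (measurableSet_ball.nullMeasurableSet) hvol
      have hxW : x ∈ W := hδW (by
        rw [mem_ball] at hx ⊢
        calc dist x z ≤ dist x y + dist y z := dist_triangle _ _ _
          _ < δ := by linarith)
      have hd : dist (F^[m] x) x < 2 * ε := by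
        rw [mem_ball] at hx hmx
        calc dist (F^[m] x) x ≤ dist (F^[m] x) y + dist x y := dist_triangle_right _ _ _
          _ < 2 * ε := by linarith
      have h1 := (hs x hxW m hm0).trans_lt hd
      have hΛm0 : 0 < Λ m := by linarith [hΛ1 m]
      rw [div_lt_iff₀ (by positivity)] at h1
      have h2 : (Λ m) ^ b ≤ (Λ n) ^ (b + 1) :=
        (pow_le_pow_left₀ hΛm0.le (hΛm hmn.le) b).trans
          (pow_le_pow_right₀ (hΛ1 n) (Nat.le_succ b))
      have h3 := hnum ε hε hε2 n (by omega)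
        (h1.le.trans (mul_le_mul_of_nonneg_left h2 (by positivity)))
      have h4 : a ≤ 2 * C * φ ε := by
        have h5 : 1 ≤ C * (2 / a) * φ ε := h3.trans (by gcongr)
        have h6 : C * (2 / a) * φ ε = (2 * C * φ ε) / a := by ring
        rw [h6, le_div_iff₀ ha0] at h5
        linarith
      rw [← ENNReal.ofReal_toReal hat, ← haa]
      refine ENNReal.ofReal_le_ofReal (h4.trans ?_)
      gcongr
      exact le_max_left _ _
    · refine (prob_le_one (μ := μ)).trans ?_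
      rw [← ENNReal.ofReal_one]
      refine ENNReal.ofReal_le_ofReal ?_
      have h1 := hφ.mono δ' ε hδ'0 hεδ hε2
      calc (1 : ℝ) = 1 / φ δ' * φ δ' := by field_simp
        _ ≤ max (2 * C) (1 / φ δ') * φ ε := by
          gcongr
          exact le_max_right _ _
  · intro S hS hcov
    have hM : 1 ≤ S.card := by
      obtain ⟨s, hs, -⟩ := hcov 0
      exact Finset.card_pos.2 ⟨s, hs⟩
    choose f hf1 hf2 using hcov
    have hcard : S.card < (Finset.range (S.card + 1)).card := by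
      rw [Finset.card_range]; exact Nat.lt_succ_self _
    obtain ⟨i, hi, j, hj, hij, hfij⟩ :=
      Finset.exists_ne_map_eq_of_card_lt_of_maps_to hcard (f := f) (fun i _ => hf1 i)
    have key : ∀ i j : ℕ, i < j → j ≤ S.card → f i = f j → c ≤ 2 * ε * (Λ S.card) ^ (b + 1) := by
      intro i j hij hj hfij
      have hd : dist (F^[i] y) (F^[j] y) ≤ ε := by
        have h1 : edist (F^[i] y) (F^[j] y) ≤ ENNReal.ofReal ε :=
          (edist_le_ediam_of_mem (hf2 i) (hfij ▸ hf2 j)).trans (hS _ (hf1 i))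
        rw [edist_dist] at h1
        exact (ENNReal.ofReal_le_ofReal_iff hε.le).1 h1
      have e : F^[j] y = F^[i] (F^[j - i] y) := by
        rw [← Function.iterate_add_apply]
        congr 2
        omega
      have h1 := hlip i y (F^[j - i] y)
      rw [← e] at h1
      have hΛi : 0 < Λ i := by linarith [hΛ1 i]
      have hΛS : 0 < Λ S.card := by linarith [hΛ1 S.card]
      have h2 : dist y (F^[j - i] y) ≤ Λ S.card * ε := by
        refine h1.trans ?_
        have h3 : Λ i ≤ Λ S.card := hΛm (by omega)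
        gcongr
      have hyW : y ∈ W := hδW (by rw [mem_ball]; linarith)
      have h3 := (hs y hyW (j - i) (by omega)).trans ((dist_comm _ _).le.trans h2)
      have hΛji : 0 < Λ (j - i) := by linarith [hΛ1 (j - i)]
      rw [div_le_iff₀ (by positivity)] at h3
      refine h3.trans ?_
      have h4 : (Λ (j - i)) ^ b ≤ (Λ S.card) ^ b :=
        pow_le_pow_left₀ hΛji.le (hΛm (by omega)) b
      calc Λ S.card * ε * Λ (j - i) ^ b ≤ Λ S.card * ε * Λ S.card ^ b := by gcongr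
        _ = ε * Λ S.card ^ (b + 1) := by ring
        _ ≤ 2 * ε * Λ S.card ^ (b + 1) := by
          have : 0 < ε * Λ S.card ^ (b + 1) := by positivity
          linarith
    have hfin : c ≤ 2 * ε * (Λ S.card) ^ (b + 1) := by
      rw [Finset.mem_range] at hi hj
      rcases lt_or_gt_of_ne hij with h | h
      · exact key i j h (by omega) hfij
      · exact key j i h (by omega) hfij.symm
    refine (hnum ε hε hε2 S.card hM hfin).trans ?_
    have hS0 : (0 : ℝ) < S.card := by exact_mod_cast hM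
    have h1 : C ≤ max (2 * C) (1 / φ δ') := le_max_of_le_left (by linarith)
    gcongr

/-- the mass distribution principle -/
theorem null_of_fro {φ : ℝ → ℝ} (hφ : Gauge φ) {g : ℝ≥0∞ → ℝ≥0∞}
    (hg : ∀ t : ℝ, 0 < t → t < 1 / 4 → ENNReal.ofReal (φ t) ≤ g (ENNReal.ofReal t))
    {F : N → N} {z : N} (h : Fro φ F z) :
    ∃ W ∈ 𝓝 z, ∀ μ : Measure N, IsProbabilityMeasure μ → MeasurePreserving F μ μ →
      ∀ Y : Set N, Measure.mkMetric g Y = 0 → μ (Y ∩ W) = 0 := by
  obtain ⟨W, hW, C, hC, h⟩ := h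
  obtain ⟨W', hW'W, hW'o, hzW'⟩ := _root_.mem_nhds_iff.1 hW
  obtain ⟨D, hD, hdbl⟩ := hφ.dbl
  refine ⟨W', hW'o.mem_nhds hzW', fun μ hμ hF Y hY => ?_⟩
  have hmu : ∀ y ∈ W', ∀ ε, 0 < ε → ε < 1 / 2 → μ (ball y ε) ≤ ENNReal.ofReal (C * φ ε) :=
    fun y hy ε h1 h2 => (h y (hW'W hy) ε h1 h2).1 μ hμ hF
  have hCD : 0 < C * D := by positivity
  have key : μ.restrict W' ≤ Measure.mkMetric (fun t => ENNReal.ofReal (C * D) * g t) := by
    refine Measure.le_mkMetric _ _ (ENNReal.ofReal (1 / 8)) (by simp) fun s hs => ?_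
    rw [Measure.restrict_apply' hW'o.measurableSet]
    rcases (s ∩ W').eq_empty_or_nonempty with he | ⟨y, hys, hyW⟩
    · rw [he, measure_empty]; exact zero_le
    have hfin : ediam s ≠ ∞ := ne_top_of_le_ne_top ENNReal.ofReal_ne_top hs
    obtain ⟨t, ht⟩ : ∃ t : ℝ, t = (ediam s).toReal := ⟨_, rfl⟩
    have ht0 : 0 ≤ t := by rw [ht]; exact ENNReal.toReal_nonneg
    have hts : ENNReal.ofReal t = ediam s := by rw [ht, ENNReal.ofReal_toReal hfin]
    have ht8 : t ≤ 1 / 8 := by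
      rw [← hts] at hs
      exact (ENNReal.ofReal_le_ofReal_iff (by norm_num)).1 hs
    have hsub : ∀ ε, t < ε → s ∩ W' ⊆ ball y ε := by
      intro ε hε x hx
      rw [mem_ball]
      have h1 : edist x y ≤ ENNReal.ofReal t := by
        rw [hts]; exact edist_le_ediam_of_mem hx.1 hys
      rw [edist_dist] at h1
      exact ((ENNReal.ofReal_le_ofReal_iff ht0).1 h1).trans_lt hε
    rcases ht0.eq_or_lt with h0 | h0
    · have hz : μ (s ∩ W') ≤ 0 := by
        have hlim : Tendsto (fun ε => ENNReal.ofReal (C * φ ε)) (𝓝[>] 0) (𝓝 0) := by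
          have h1 := (hφ.lim.const_mul C)
          rw [mul_zero] at h1
          have h2 := ENNReal.tendsto_ofReal h1
          rwa [ENNReal.ofReal_zero] at h2
        refine ge_of_tendsto hlim ?_
        filter_upwards [Ioo_mem_nhdsGT (show (0 : ℝ) < 1 / 2 by norm_num)] with ε hε
        exact (measure_mono (hsub ε (by rw [← h0]; exact hε.1))).trans (hmu y hyW ε hε.1 hε.2)
      exact hz.trans zero_le
    · calc μ (s ∩ W') ≤ μ (ball y (2 * t)) := measure_mono (hsub _ (by linarith))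
        _ ≤ ENNReal.ofReal (C * φ (2 * t)) := hmu y hyW _ (by linarith) (by linarith)
        _ ≤ ENNReal.ofReal (C * D * φ t) := by
          refine ENNReal.ofReal_le_ofReal ?_
          have := hdbl t h0 (by linarith)
          calc C * φ (2 * t) ≤ C * (D * φ t) := by gcongr
            _ = C * D * φ t := by ring
        _ = ENNReal.ofReal (C * D) * ENNReal.ofReal (φ t) := ENNReal.ofReal_mul hCD.le
        _ ≤ ENNReal.ofReal (C * D) * g (ediam s) := by
          rw [← hts]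
          gcongr
          exact hg t h0 (by linarith)
  have key2 : (Measure.mkMetric (fun t => ENNReal.ofReal (C * D) * g t) : Measure N) ≤
      ENNReal.ofReal (C * D) • Measure.mkMetric g :=
    Measure.mkMetric_mono_smul ENNReal.ofReal_ne_top (by simpa using hCD)
      (Eventually.of_forall fun t => le_rfl)
  have h1 : μ.restrict W' Y ≤ (ENNReal.ofReal (C * D) • Measure.mkMetric g : Measure N) Y :=
    (key Y).trans (key2 Y)
  rw [Measure.restrict_apply' hW'o.measurableSet, Measure.smul_apply, hY, smul_zero] at h1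
  exact le_antisymm h1 zero_le

end

/-! ### Numbers -/

theorem gauge_log : Gauge (fun t => 1 / Real.log (1 / t)) := by
  have hpos : ∀ t : ℝ, 0 < t → t < 1 / 2 → 0 < Real.log (1 / t) := fun t h0 h1 =>
    Real.log_pos (by rw [lt_div_iff₀ h0]; linarith)
  refine ⟨fun t h0 h1 => one_div_pos.2 (hpos t h0 h1), ?_, ⟨2, by norm_num, ?_⟩, ?_⟩
  · intro s t hs hst ht
    have h1 := hpos t (by linarith) ht
    refine one_div_le_one_div_of_le h1 ?_
    exact Real.log_le_log (one_div_pos.2 (by linarith)) (one_div_le_one_div_of_le hs hst)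
  · intro t h0 h1
    have h2 := hpos t h0 (by linarith)
    have h3 := hpos (2 * t) (by linarith) (by linarith)
    have e : Real.log (1 / (2 * t)) = Real.log (1 / t) - Real.log 2 := by
      rw [← Real.log_div (by positivity) (by norm_num)]
      congr 1
      field_simp
    have h4 : 2 * Real.log 2 ≤ Real.log (1 / t) := by
      have : 2 * Real.log 2 = Real.log 4 := by
        rw [show (4 : ℝ) = 2 ^ 2 by norm_num, Real.log_pow]; norm_num
      rw [this]
      exact Real.log_le_log (by norm_num) (by rw [le_div_iff₀ h0]; linarith)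
    show 1 / Real.log (1 / (2 * t)) ≤ 2 * (1 / Real.log (1 / t))
    rw [e, div_le_iff₀ (by linarith), mul_one_div, div_mul_eq_mul_div, le_div_iff₀ h2]
    linarith
  · have h1 : Tendsto (fun t : ℝ => Real.log (1 / t)) (𝓝[>] 0) atTop := by
      have h2 : Tendsto (fun t : ℝ => 1 / t) (𝓝[>] 0) atTop := by
        simpa [one_div] using tendsto_inv_nhdsGT_zero (𝕜 := ℝ)
      exact Real.tendsto_log_atTop.comp h2
    have h2 := h1.inv_tendsto_atTop
    refine h2.congr fun t => ?_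
    rw [Pi.inv_apply, one_div (Real.log (1 / t))]

theorem gauge_pow {κ : ℝ} (hκ : 0 < κ) : Gauge (fun t => t ^ κ) := by
  refine ⟨fun t h0 _ => Real.rpow_pos_of_pos h0 _, ?_, ⟨2 ^ κ, by positivity, ?_⟩, ?_⟩
  · intro s t hs hst _
    exact Real.rpow_le_rpow hs.le hst hκ.le
  · intro t h0 _
    show (2 * t) ^ κ ≤ 2 ^ κ * t ^ κ
    rw [Real.mul_rpow (by norm_num) h0.le]
  · have h1 : ContinuousAt (fun t : ℝ => t ^ κ) 0 :=
      Real.continuousAt_rpow_const 0 κ (Or.inr hκ.le)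
    have h2 := h1.tendsto
    simp only [Real.zero_rpow hκ.ne'] at h2
    exact h2.mono_left nhdsWithin_le_nhds

theorem num_log {c L : ℝ} (hc : 0 < c) (hL : 2 ≤ L) (b : ℕ) : ∃ C : ℝ, 0 < C ∧ ∀ ε, 0 < ε →
    ε < 1 / 2 → ∀ M : ℕ, 1 ≤ M → c ≤ 2 * ε * (L ^ (2 * M)) ^ (b + 1) →
      1 ≤ C * M * (1 / Real.log (1 / ε)) := by
  have hlogL : 0 < Real.log L := Real.log_pos (by linarith)
  refine ⟨|Real.log 2 - Real.log c| + 2 * (b + 1) * Real.log L, by positivity, ?_⟩
  intro ε h0 h1 M hM h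
  have h2 : 0 < Real.log (1 / ε) := Real.log_pos (by rw [lt_div_iff₀ h0]; linarith)
  have hM1 : (1 : ℝ) ≤ M := by exact_mod_cast hM
  have hL0 : 0 < L := by linarith
  have h3 := Real.log_le_log hc h
  rw [Real.log_mul (by positivity) (by positivity), Real.log_mul (by norm_num) h0.ne',
    Real.log_pow, Real.log_pow] at h3
  push_cast at h3
  rw [mul_one_div, le_div_iff₀ h2, one_mul, one_div, Real.log_inv]
  have h4 : Real.log 2 - Real.log c ≤ |Real.log 2 - Real.log c| * M :=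
    (le_abs_self _).trans (le_mul_of_one_le_right (abs_nonneg _) hM1)
  nlinarith [h4]

theorem num_pow {c K : ℝ} (hc : 0 < c) (hK : 1 ≤ K) (b d : ℕ) : ∃ C : ℝ, 0 < C ∧ ∀ ε, 0 < ε →
    ε < 1 / 2 → ∀ M : ℕ, 1 ≤ M → c ≤ 2 * ε * (K * (2 * (M : ℝ) + 1) ^ d) ^ (b + 1) →
      1 ≤ C * M * ε ^ ((1 : ℝ) / (d * (b + 1) + 1)) := by
  obtain ⟨D, hD⟩ : ∃ D : ℕ, D = d * (b + 1) + 1 := ⟨_, rfl⟩
  have hD0 : (D : ℝ) ≠ 0 := by
    rw [hD]; positivity
  have hDr : ((d : ℝ) * (b + 1) + 1) = D := by rw [hD]; push_cast; ring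
  rw [hDr]
  obtain ⟨c', hc'⟩ : ∃ c' : ℝ, c' = c / (2 * K ^ (b + 1)) := ⟨_, rfl⟩
  have hc'0 : 0 < c' := by rw [hc']; positivity
  refine ⟨3 / c' ^ ((1 : ℝ) / D), by positivity, ?_⟩
  intro ε h0 h1 M hM h
  have hM1 : (1 : ℝ) ≤ M := by exact_mod_cast hM
  have h2 : c' ≤ ε * (3 * M) ^ D := by
    rw [hc', div_le_iff₀ (by positivity)]
    refine h.trans ?_
    rw [mul_pow, ← pow_mul]
    have h3 : (2 * (M : ℝ) + 1) ^ (d * (b + 1)) ≤ (3 * M) ^ D := by
      calc (2 * (M : ℝ) + 1) ^ (d * (b + 1)) ≤ (3 * M) ^ (d * (b + 1)) :=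
            pow_le_pow_left₀ (by positivity) (by linarith) _
        _ ≤ (3 * M) ^ D := pow_le_pow_right₀ (by linarith) (by rw [hD]; omega)
    calc 2 * ε * (K ^ (b + 1) * (2 * (M : ℝ) + 1) ^ (d * (b + 1))) ≤
        2 * ε * (K ^ (b + 1) * (3 * M) ^ D) := by gcongr
      _ = ε * (3 * M) ^ D * (2 * K ^ (b + 1)) := by ring
  have h4 : c' ^ ((1 : ℝ) / D) ≤ ε ^ ((1 : ℝ) / D) * (3 * M) := by
    have h5 := Real.rpow_le_rpow hc'0.le h2 (show (0 : ℝ) ≤ 1 / D by positivity)
    rw [Real.mul_rpow h0.le (by positivity), ← Real.rpow_natCast (3 * (M : ℝ)) D,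
      ← Real.rpow_mul (by positivity), mul_one_div, div_self hD0, Real.rpow_one] at h5
    exact h5
  have h6 : 0 < c' ^ ((1 : ℝ) / D) := Real.rpow_pos_of_pos hc'0 _
  calc (1 : ℝ) = c' ^ ((1 : ℝ) / D) / c' ^ ((1 : ℝ) / D) := by rw [div_self h6.ne']
    _ ≤ (ε ^ ((1 : ℝ) / D) * (3 * M)) / c' ^ ((1 : ℝ) / D) := by gcongr
    _ = 3 / c' ^ ((1 : ℝ) / D) * M * ε ^ ((1 : ℝ) / D) := by ring

end Pool.Agent.H64.CT
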