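import Pool.Agent.Y368.GG.Main
import Pool.Agent.Y504.CO.KSG
import Pool.Agent.N813.EM.BIL
import Pool.Agent.H64.CT.Thin

/-!
# Thin recurrence and the `C^r` closing lemma: definitions
-/

set_option autoImplicit false

open MeasureTheory Filter Set Metric
open scoped Manifold ContDiff Topology ENNReal NNReal

universe u

namespace Pool.Agent.H64.CT

open Pool.Agent.H718R2.G Pool.Agent.W564.SC Pool.Agent.Y368.CL

/-- The gauge function `(log(1/t))^(-1/β)` (as a function of real numbers). -/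
noncomputable def logGauge (β t : ℝ) : ℝ := (1 / Real.log (1 / t)) ^ (1 / β)

/-- Hausdorff measure for the gauge function `(log(1/t))^(-1/β)`; for `β = 1` this is the logarithmic
measure (the gauge function `1/log(1/t)`). -/
noncomputable def logMeasure (N : Type u) [MetricSpace N] [MeasurableSpace N] [BorelSpace N]
    (β : ℝ) : Measure N :=
  Measure.mkMetric fun t : ℝ≥0∞ => ENNReal.ofReal (logGauge β t.toReal)

section

variable {N : Type u} [MetricSpace N]

/-- Some invariant Borel probability measure `μ` of `F` charges a set `Y` with the property `P`, and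
`z` lies in the support of the restriction of `μ` to `Y`. -/
def Carried [MeasurableSpace N] (F : N → N) (z : N) (P : Set N → Prop) : Prop :=
  ∃ μ : Measure N, IsProbabilityMeasure μ ∧ MeasurePreserving F μ μ ∧
    ∃ Y : Set N, P Y ∧ ∀ W ∈ 𝓝 z, μ (Y ∩ W) ≠ 0

/-- There are points `y` arbitrarily close to `z` and `ε < 1/2` such that the forward orbit of `y` is
covered by fewer than `1/(C φ(ε))` sets of diameter at most `ε`, where `C` is as large as desired. -/
def Sparse (φ : ℝ → ℝ) (F : N → N) (z : N) : Prop :=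
  ∀ W ∈ 𝓝 z, ∀ C : ℝ, ∃ y ∈ W, ∃ ε : ℝ, 0 < ε ∧ ε < 1 / 2 ∧ ∃ S : Finset (Set N),
    (∀ s ∈ S, ediam s ≤ ENNReal.ofReal ε) ∧ (∀ i : ℕ, ∃ s ∈ S, F^[i] y ∈ s) ∧
    C * S.card * φ ε < 1

variable {n : ℕ} [ChartedSpace (V n) N] {r : ℕ∞}

/-- The Lipschitz constants of `F^i` and `F^(-i)` are at most `exp(K (i+1)^β)`. -/
def StretchedGrowth (β : ℝ) (F : DiffM n N r) : Prop :=
  ∃ K : ℝ, ∀ (i : ℕ) (x y : N),
    dist (F^[i] x) (F^[i] y) ≤ Real.exp (K * ((i : ℝ) + 1) ^ β) * dist x y ∧
    dist (F.symm^[i] x) (F.symm^[i] y) ≤ Real.exp (K * ((i : ℝ) + 1) ^ β) * dist x y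

/-- The Lipschitz constants of `F^i` and `F^(-i)` are at most `K (i+1)^d`. -/
def PolyGrowth (d : ℕ) (F : DiffM n N r) : Prop :=
  ∃ K : ℝ, ∀ (i : ℕ) (x y : N),
    dist (F^[i] x) (F^[i] y) ≤ K * ((i : ℝ) + 1) ^ d * dist x y ∧
    dist (F.symm^[i] x) (F.symm^[i] y) ≤ K * ((i : ℝ) + 1) ^ d * dist x y

/-- Thin recurrence at `z`, relative to the growth of the iterates of `F`: either the iterates of `F`
grow at most like `exp(K i^β)`, `0 < β ≤ 1` (for `β = 1` every `F` is like this), and `z` is in the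
support of `μ|Y` for an invariant probability measure `μ` and a set `Y` with `logMeasure N β Y = 0`, or
orbits close to `z` are sparse for the gauge `(log(1/t))^(-1/β)`; or the iterates grow at most
polynomially, like `i^d`, and, for all finite `k ≤ r`, the same holds with the gauge `t^(κ k d)`
(`Y` has Hausdorff dimension less than `κ k d`). -/
def ThinRec [MeasurableSpace N] [BorelSpace N] (κ : ℕ → ℕ → ℝ≥0) (F : DiffM n N r) (z : N) :
    Prop :=
  (∃ β : ℝ, 0 < β ∧ β ≤ 1 ∧ StretchedGrowth β F ∧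
    (Carried F z (fun Y => logMeasure N β Y = 0) ∨ Sparse (logGauge β) F z)) ∨
  ∃ d : ℕ, PolyGrowth d F ∧ ∀ k : ℕ, (k : ℕ∞) ≤ r →
    (Carried F z (fun Y => dimH Y < κ k d) ∨ Sparse (fun t => t ^ (κ k d : ℝ)) F z)

end

end Pool.Agent.H64.CT
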