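import Pool.Agent.H64.CT.Defs

/-!
# Thin recurrence and the `C^r` closing lemma: proofs
-/

set_option autoImplicit false

open MeasureTheory Filter Set Metric
open scoped Manifold ContDiff Topology ENNReal NNReal

universe u

namespace Pool.Agent.H64.CT

open Pool.Agent.H718R2.G Pool.Agent.TH80.OMS Pool.Agent.W564.SC Pool.Agent.Y368.CL
  Pool.Agent.Y504.CO Pool.Agent.Y504.CO.KSG

theorem Gauge.rpow {φ : ℝ → ℝ} (h : Gauge φ) {p : ℝ} (hp : 0 < p) : Gauge fun t => φ t ^ p := by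
  refine ⟨fun t h0 h1 => Real.rpow_pos_of_pos (h.pos t h0 h1) _, ?_, ?_, ?_⟩
  · intro s t hs hst ht
    exact Real.rpow_le_rpow (h.pos s hs (by linarith)).le (h.mono s t hs hst ht) hp.le
  · obtain ⟨D, hD, hd⟩ := h.dbl
    refine ⟨D ^ p, by positivity, fun t h0 h1 => ?_⟩
    rw [← Real.mul_rpow hD.le (h.pos t h0 (by linarith)).le]
    exact Real.rpow_le_rpow (h.pos (2 * t) (by linarith) (by linarith)).le (hd t h0 h1) hp.le
  · have h1 : ContinuousAt (fun t : ℝ => t ^ p) 0 :=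
      Real.continuousAt_rpow_const 0 p (Or.inr hp.le)
    have h2 := h1.tendsto.comp h.lim
    simp only [Real.zero_rpow hp.ne'] at h2
    exact h2

theorem gauge_logG {β : ℝ} (hβ : 0 < β) : Gauge (logGauge β) :=
  gauge_log.rpow (one_div_pos.2 hβ)

theorem num_str {c K β : ℝ} (hc : 0 < c) (hK : 0 ≤ K) (hβ : 0 < β) (b : ℕ) :
    ∃ C : ℝ, 0 < C ∧ ∀ ε, 0 < ε → ε < 1 / 2 → ∀ M : ℕ, 1 ≤ M →
      c ≤ 2 * ε * (Real.exp (K * (2 * (M : ℝ) + 1) ^ β)) ^ (b + 1) →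
      1 ≤ C * M * logGauge β ε := by
  obtain ⟨A, hA⟩ : ∃ A : ℝ, A = |Real.log 2 - Real.log c| + (b + 1) * (K * 3 ^ β) + 1 := ⟨_, rfl⟩
  have hA0 : 0 < A := by rw [hA]; positivity
  refine ⟨A ^ (1 / β), by positivity, ?_⟩
  intro ε h0 h1 M hM h
  have h2 : 0 < Real.log (1 / ε) := Real.log_pos (by rw [lt_div_iff₀ h0]; linarith)
  have hM1 : (1 : ℝ) ≤ M := by exact_mod_cast hM
  have hM0 : (0 : ℝ) < M := by linarith
  have h3 := Real.log_le_log hc h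
  rw [Real.log_mul (by positivity) (by positivity), Real.log_mul (by norm_num) h0.ne',
    Real.log_pow, Real.log_exp] at h3
  push_cast at h3
  have hMβ : 1 ≤ (M : ℝ) ^ β := Real.one_le_rpow hM1 hβ.le
  have h4 : Real.log 2 - Real.log c ≤ |Real.log 2 - Real.log c| * (M : ℝ) ^ β :=
    (le_abs_self _).trans (le_mul_of_one_le_right (abs_nonneg _) hMβ)
  have h5 : (2 * (M : ℝ) + 1) ^ β ≤ 3 ^ β * (M : ℝ) ^ β := by
    rw [← Real.mul_rpow (by norm_num) hM0.le]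
    exact Real.rpow_le_rpow (by positivity) (by linarith) hβ.le
  have h6 : Real.log (1 / ε) ≤ A * (M : ℝ) ^ β := by
    rw [one_div, Real.log_inv]
    have h7 : ((b : ℝ) + 1) * (K * (2 * (M : ℝ) + 1) ^ β) ≤
        (b + 1) * (K * (3 ^ β * (M : ℝ) ^ β)) := by gcongr
    have h8 : A * (M : ℝ) ^ β = |Real.log 2 - Real.log c| * (M : ℝ) ^ β +
        (b + 1) * (K * (3 ^ β * (M : ℝ) ^ β)) + (M : ℝ) ^ β := by rw [hA]; ring
    rw [h8]
    linarith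
  have h7 : (Real.log (1 / ε)) ^ (1 / β) ≤ A ^ (1 / β) * M := by
    have h8 := Real.rpow_le_rpow h2.le h6 (one_div_pos.2 hβ).le
    rwa [Real.mul_rpow hA0.le (by positivity), ← Real.rpow_mul hM0.le, mul_one_div,
      div_self hβ.ne', Real.rpow_one] at h8
  have h9 : 0 < (Real.log (1 / ε)) ^ (1 / β) := Real.rpow_pos_of_pos h2 _
  rw [logGauge, Real.div_rpow zero_le_one h2.le, Real.one_rpow, mul_one_div, le_div_iff₀ h9,
    one_mul]
  exact h7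

section

variable {n : ℕ} {N : Type u} [MetricSpace N] [ChartedSpace (V n) N] {r : ℕ∞}

theorem lip_back {F : DiffM n N r} {m : ℕ} {Γ : ℝ} (h : LipTo F m Γ) (x y : N) :
    dist x y ≤ Γ * dist (F^[m] x) (F^[m] y) := by
  have h1 := (h m (by omega) (F^[m] x) (F^[m] y)).2
  have e : Function.LeftInverse (F.symm^[m]) (F^[m]) :=
    Function.LeftInverse.iterate (fun x => F.symm_apply_apply x) m
  rwa [e x, e y] at h1

/-- slow returns at `z` -/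
def Slow (b : ℕ → ℕ) (F : DiffM n N r) (z : N) : Prop :=
  ∀ Λ : ℕ → ℝ, (∀ m, LipTo F m (Λ m)) → (∀ m : ℕ, (m : ℝ) ≤ Λ m) →
    ∃ k : ℕ, (k : ℕ∞) ≤ r ∧ ∃ W ∈ 𝓝 z, ∃ c : ℝ, 0 < c ∧
      ∀ y ∈ W, ∀ m : ℕ, 1 ≤ m → c / (Λ m) ^ b k ≤ dist (F^[m] y) y

variable [MeasurableSpace N] [BorelSpace N]

theorem fro_str {b : ℕ → ℕ} {F : DiffM n N r} {z : N} (hs : Slow b F z) {β : ℝ} (hβ : 0 < β)
    (hF : StretchedGrowth β F) : Fro (logGauge β) F z := by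
  obtain ⟨K, hK⟩ := hF
  obtain ⟨K', hK'⟩ : ∃ K' : ℝ, K' = max K (1 / β) := ⟨_, rfl⟩
  have hK'0 : 0 < K' := by rw [hK']; exact lt_max_of_lt_right (by positivity)
  have hKK' : K ≤ K' := by rw [hK']; exact le_max_left _ _
  have hβK' : 1 / β ≤ K' := by rw [hK']; exact le_max_right _ _
  obtain ⟨Λ, hΛ⟩ : ∃ Λ : ℕ → ℝ, Λ = fun m : ℕ => Real.exp (K' * (2 * (m : ℝ) + 1) ^ β) := ⟨_, rfl⟩
  have hΛ1 : ∀ m, 1 ≤ Λ m := fun m => by
    rw [hΛ]; exact Real.one_le_exp (by positivity)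
  have hΛm : Monotone Λ := by
    intro m m' h
    rw [hΛ]
    refine Real.exp_le_exp.2 ?_
    have h' : (m : ℝ) ≤ m' := by exact_mod_cast h
    have := Real.rpow_le_rpow (show (0 : ℝ) ≤ 2 * m + 1 by positivity)
      (show 2 * (m : ℝ) + 1 ≤ 2 * m' + 1 by linarith) hβ.le
    exact mul_le_mul_of_nonneg_left this hK'0.le
  have hlip : ∀ m, LipTo F m (Λ m) := by
    intro m i hi x y
    have h1 : Real.exp (K * ((i : ℝ) + 1) ^ β) ≤ Λ m := by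
      rw [hΛ]
      refine Real.exp_le_exp.2 ?_
      have h' : (i : ℝ) ≤ 2 * m := by exact_mod_cast hi
      have h3 := Real.rpow_le_rpow (show (0 : ℝ) ≤ i + 1 by positivity)
        (show (i : ℝ) + 1 ≤ 2 * m + 1 by linarith) hβ.le
      have h4 : (0 : ℝ) ≤ ((i : ℝ) + 1) ^ β := by positivity
      exact mul_le_mul hKK' h3 h4 hK'0.le
    obtain ⟨h3, h4⟩ := hK i x y
    exact ⟨h3.trans (mul_le_mul_of_nonneg_right h1 dist_nonneg),
      h4.trans (mul_le_mul_of_nonneg_right h1 dist_nonneg)⟩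
  have hmΛ : ∀ m : ℕ, (m : ℝ) ≤ Λ m := by
    intro m
    rw [hΛ]
    have h0 : (0 : ℝ) < 2 * m + 1 := by positivity
    have h1 : Real.log (2 * m + 1) ≤ K' * (2 * (m : ℝ) + 1) ^ β := by
      have h3 := Real.log_le_rpow_div h0.le hβ
      calc Real.log (2 * m + 1) ≤ (2 * (m : ℝ) + 1) ^ β / β := h3
        _ = 1 / β * (2 * (m : ℝ) + 1) ^ β := by ring
        _ ≤ K' * (2 * (m : ℝ) + 1) ^ β := by gcongr
    calc (m : ℝ) ≤ 2 * m + 1 := by linarith [(Nat.cast_nonneg m : (0 : ℝ) ≤ m)]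
      _ = Real.exp (Real.log (2 * m + 1)) := (Real.exp_log h0).symm
      _ ≤ _ := Real.exp_le_exp.2 h1
  obtain ⟨k, -, W, hW, c, hc, h⟩ := hs Λ hlip hmΛ
  refine fro_of (gauge_logG hβ) F z Λ hΛ1 hΛm (fun i x y => lip_back (hlip i) x y) (b k) W hW c h ?_
  have := num_str hc hK'0.le hβ (b k)
  rw [hΛ]
  exact this

theorem fro_poly {b : ℕ → ℕ} {F : DiffM n N r} {z : N} (hs : Slow b F z) {d : ℕ}
    (hF : PolyGrowth d F) : ∃ k : ℕ, (k : ℕ∞) ≤ r ∧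
      Fro (fun t => t ^ ((1 : ℝ) / ((d + 1 : ℕ) * (b k + 1) + 1))) F z := by
  obtain ⟨K, hK⟩ := hF
  obtain ⟨K', hK'⟩ : ∃ K' : ℝ, K' = max K 1 := ⟨_, rfl⟩
  have hK'1 : 1 ≤ K' := by rw [hK']; exact le_max_right _ _
  have hKK' : K ≤ K' := by rw [hK']; exact le_max_left _ _
  obtain ⟨Λ, hΛ⟩ : ∃ Λ : ℕ → ℝ, Λ = fun m : ℕ => K' * (2 * (m : ℝ) + 1) ^ (d + 1) := ⟨_, rfl⟩
  have hpm : ∀ m : ℕ, (1 : ℝ) ≤ 2 * m + 1 := fun m => by
    linarith [(Nat.cast_nonneg m : (0 : ℝ) ≤ m)]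
  have hΛ1 : ∀ m, 1 ≤ Λ m := fun m => by
    rw [hΛ]
    have : 1 ≤ (2 * (m : ℝ) + 1) ^ (d + 1) := one_le_pow₀ (hpm m)
    show 1 ≤ K' * (2 * (m : ℝ) + 1) ^ (d + 1)
    nlinarith
  have hΛm : Monotone Λ := by
    intro m m' h
    rw [hΛ]
    have h' : (m : ℝ) ≤ m' := by exact_mod_cast h
    show K' * (2 * (m : ℝ) + 1) ^ (d + 1) ≤ K' * (2 * (m' : ℝ) + 1) ^ (d + 1)
    gcongr
  have hlip : ∀ m, LipTo F m (Λ m) := by
    intro m i hi x y
    have h1 : K * ((i : ℝ) + 1) ^ d ≤ Λ m := by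
      rw [hΛ]
      have h' : (i : ℝ) ≤ 2 * m := by exact_mod_cast hi
      calc K * ((i : ℝ) + 1) ^ d ≤ K' * ((i : ℝ) + 1) ^ d := by gcongr
        _ ≤ K' * (2 * (m : ℝ) + 1) ^ d := by gcongr
        _ ≤ K' * (2 * (m : ℝ) + 1) ^ (d + 1) := by
          gcongr
          · exact hpm m
          · omega
    obtain ⟨h3, h4⟩ := hK i x y
    exact ⟨h3.trans (mul_le_mul_of_nonneg_right h1 dist_nonneg),
      h4.trans (mul_le_mul_of_nonneg_right h1 dist_nonneg)⟩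
  have hmΛ : ∀ m : ℕ, (m : ℝ) ≤ Λ m := by
    intro m
    rw [hΛ]
    have h1 : (2 * (m : ℝ) + 1) ≤ (2 * (m : ℝ) + 1) ^ (d + 1) := le_self_pow₀ (hpm m) (by omega)
    have h2 : (0 : ℝ) ≤ m := Nat.cast_nonneg m
    show (m : ℝ) ≤ K' * (2 * (m : ℝ) + 1) ^ (d + 1)
    nlinarith
  obtain ⟨k, hk, W, hW, c, hc, h⟩ := hs Λ hlip hmΛ
  refine ⟨k, hk, ?_⟩
  refine fro_of (gauge_pow (by positivity)) F z Λ hΛ1 hΛm (fun i x y => lip_back (hlip i) x y)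
    (b k) W hW c h ?_
  have := num_pow hc hK'1 (b k) (d + 1)
  rw [hΛ]
  exact this

omit [BorelSpace N] in
theorem not_sparse {φ : ℝ → ℝ} {F : N → N} {z : N} (h : Fro φ F z) : ¬ Sparse φ F z := by
  intro hs
  obtain ⟨W, hW, C, hC, h⟩ := h
  obtain ⟨y, hy, ε, h0, h1, S, h2, h3, h4⟩ := hs W hW C
  exact absurd ((h y hy ε h0 h1).2 S h2 h3) (not_le.2 h4)

theorem not_thin {κ : ℕ → ℕ → ℝ≥0} (hκ : ∀ k d, 0 < κ k d) {F : DiffM n N r} {z : N}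
    (h1 : ∀ β : ℝ, 0 < β → β ≤ 1 → StretchedGrowth β F → Fro (logGauge β) F z)
    (h2 : ∀ d, PolyGrowth d F → ∃ k : ℕ, (k : ℕ∞) ≤ r ∧ Fro (fun t => t ^ (κ k d : ℝ)) F z) :
    ¬ ThinRec κ F z := by
  rintro (⟨β, hβ, hβ1, hF, hc | hs⟩ | ⟨d, hF, hd⟩)
  · obtain ⟨W, hW, h3⟩ := null_of_fro (gauge_logG hβ)
      (g := fun t : ℝ≥0∞ => ENNReal.ofReal (logGauge β t.toReal))
      (fun t ht _ => by simp only [ENNReal.toReal_ofReal ht.le]; exact le_rfl) (h1 β hβ hβ1 hF)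
    obtain ⟨μ, hμ, hμF, Y, hY, hYW⟩ := hc
    exact hYW W hW (h3 μ hμ hμF Y hY)
  · exact not_sparse (h1 β hβ hβ1 hF) hs
  · obtain ⟨k, hk, h3⟩ := h2 d hF
    rcases hd k hk with hc | hs
    · have hκ' : (0 : ℝ) < κ k d := hκ k d
      obtain ⟨W, hW, h4⟩ := null_of_fro (gauge_pow hκ') (g := fun t : ℝ≥0∞ => t ^ (κ k d : ℝ))
        (fun t ht _ => (ENNReal.ofReal_rpow_of_pos ht).symm.le) h3
      obtain ⟨μ, hμ, hμF, Y, hY, hYW⟩ := hc
      exact hYW W hW (h4 μ hμ hμF Y (hausdorffMeasure_of_dimH_lt hY))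
    · exact not_sparse h3 hs

omit [MeasurableSpace N] [BorelSpace N] in
theorem stretched_one [CompactSpace N] [IsManifold (𝓡 n) ∞ N] (hN : ChartLip n N) (hr : 1 ≤ r)
    (F : DiffM n N r) : StretchedGrowth 1 F := by
  have hr' : (1 : WithTop ℕ∞) ≤ (r : WithTop ℕ∞) := by exact_mod_cast hr
  obtain ⟨Λ, hΛ⟩ := Pool.Agent.N813.EM.BIL.t n N F (F.contMDiff.of_le hr') hN
  obtain ⟨Λ', hΛ'⟩ := Pool.Agent.N813.EM.BIL.t n N F.symm (F.symm.contMDiff.of_le hr') hN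
  obtain ⟨L, hL⟩ : ∃ L : ℝ, L = max 1 (max Λ Λ') := ⟨_, rfl⟩
  have hL1 : 1 ≤ L := by rw [hL]; exact le_max_left _ _
  have hΛL : Λ ≤ L := by rw [hL]; exact (le_max_left _ _).trans (le_max_right _ _)
  have hΛL' : Λ' ≤ L := by rw [hL]; exact (le_max_right _ _).trans (le_max_right _ _)
  have key : ∀ G : N → N, (∀ x y, dist (G x) (G y) ≤ L * dist x y) → ∀ (i : ℕ) (x y : N),
      dist (G^[i] x) (G^[i] y) ≤ Real.exp (Real.log L * ((i : ℝ) + 1) ^ (1 : ℝ)) * dist x y := by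
    intro G hG i x y
    have h1 : dist (G^[i] x) (G^[i] y) ≤ L ^ i * dist x y := by
      induction i with
      | zero => simp
      | succ i ih =>
        rw [Function.iterate_succ_apply', Function.iterate_succ_apply', pow_succ']
        calc _ ≤ L * dist (G^[i] x) (G^[i] y) := hG _ _
          _ ≤ L * (L ^ i * dist x y) := by gcongr
          _ = _ := by ring
    refine h1.trans (mul_le_mul_of_nonneg_right ?_ dist_nonneg)
    rw [Real.rpow_one, mul_comm, show ((i : ℝ) + 1) = ((i + 1 : ℕ) : ℝ) by push_cast; ring,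
      Real.exp_nat_mul, Real.exp_log (by linarith)]
    exact pow_le_pow_right₀ hL1 (Nat.le_succ i)
  refine ⟨Real.log L, fun i x y => ⟨key F (fun x y => (hΛ x y).trans
    (mul_le_mul_of_nonneg_right hΛL dist_nonneg)) i x y, key F.symm (fun x y => (hΛ' x y).trans
    (mul_le_mul_of_nonneg_right hΛL' dist_nonneg)) i x y⟩⟩

end

end Pool.Agent.H64.CT
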